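import Pool.Agent.U262.SW.K

/-!
The number of planar self-avoiding polygons with a given chord.
-/

set_option autoImplicit false

open Filter Topology

namespace Pool.Agent.Results.MP_376faf_co.ChordCounts

/-- a closed nearest-neighbour loop on `ℤ²` with `m` steps, rooted at the origin and oriented,
that visits no vertex twice -/
def IsLoop (m : ℕ) (f : ZMod m → ℤ × ℤ) : Prop :=
  f 0 = 0 ∧ Function.Injective f ∧
    ∀ i : ZMod m, |(f (i + 1)).1 - (f i).1| + |(f (i + 1)).2 - (f i).2| = 1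

/-- the number of rooted oriented loops of perimeter `2 n` (four times `n` times the number
`p_{2n}` of polygons up to translation) -/
noncomputable def loops (n : ℕ) : ℕ := {f : ZMod (2 * n) → ℤ × ℤ | IsLoop (2 * n) f}.ncard

/-- the number of those which are at `z` after `m` steps -/
noncomputable def chord (n m : ℕ) (z : ℤ × ℤ) : ℕ :=
  {f : ZMod (2 * n) → ℤ × ℤ | IsLoop (2 * n) f ∧ f m = z}.ncard

/-- `ω` is an `n`-step self-avoiding walk on `ℤ²` started at the origin. -/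
def IsSAW (n : ℕ) (ω : Fin (n + 1) → ℤ × ℤ) : Prop :=
  ω 0 = (0, 0) ∧
  (∀ i : Fin n, |(ω i.succ).1 - (ω i.castSucc).1| + |(ω i.succ).2 - (ω i.castSucc).2| = 1) ∧
  Function.Injective ω

/-- `c_n`: the number of `n`-step self-avoiding walks from the origin -/
noncomputable def c (n : ℕ) : ℕ := Nat.card {ω : Fin (n + 1) → ℤ × ℤ // IsSAW n ω}

/-- `c_n(z)`: the number of those that end at `z` -/
noncomputable def cz (n : ℕ) (z : ℤ × ℤ) : ℕ :=
  Nat.card {ω : Fin (n + 1) → ℤ × ℤ // IsSAW n ω ∧ ω (Fin.last n) = z}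

/-- the four points `(± n, 0)` and `(0, ± n)` -/
def Tips (n : ℕ) : Set (ℤ × ℤ) := {z | |z.1| + |z.2| = n ∧ (z.1 = 0 ∨ z.2 = 0)}

theorem c_eq (n : ℕ) : c n = TH795.EP.c n := TH795.EP2.card_walks n

theorem cz_eq (n : ℕ) (x : ℤ × ℤ) : cz n x = TH795.EP.a n x.1 x.2 := TH795.EP2.card_walks_to n x

theorem chord_eq (n m : ℕ) (z : ℤ × ℤ) : chord n m z = (U262.SW.LM (2 * n) m z).ncard := rfl

theorem loops_eq (n : ℕ) : loops n = Y981.L2.ln n := rfl

/-- **Theorem.** Let `μ = lim c_n^(1/n)`.  There are `K` and a convex function `I` on the square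
`|v₁| + |v₂| ≤ 1` such that for all `n ≥ 2`, `1 ≤ m ≤ 2 n - 1` and `z ≠ 0`, with `N` the number of
rooted oriented self-avoiding loops of perimeter `2 n` which are at `z` after `m` steps:
(1) `N = 0` if `z` is one of the four points `(± n, 0)`, `(0, ± n)`; otherwise
`exp (- K (log n)^2) c_m(z) c_{2n-m}(z) ≤ N ≤ c_m(z) c_{2n-m}(z)`;
(2) the proportion of these loops among all loops of perimeter `2 n` is, up to a factor
`exp (± K (log n)^2)`, the probability that two independent self-avoiding walks with `m` and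
`2 n - m` steps both end at `z` (`z` not one of the four points);
(3) if `2 ≤ m ≤ 2 n - 2`, `|z₁| + |z₂| ≤ min (m, 2 n - m)`, `z₁ + z₂ - m` is even and `z` is not one
of the four points, `log (N / μ^(2n))` differs from
`- m I(z / m) - (2 n - m) I(z / (2 n - m))` by at most `K (log n)^2`. -/
theorem result : ∃ (μ K : ℝ) (I : ℝ × ℝ → ℝ), 0 < μ ∧
    Tendsto (fun n : ℕ => (c n : ℝ) ^ ((1:ℝ) / (n : ℝ))) atTop (𝓝 μ) ∧
    ConvexOn ℝ {v : ℝ × ℝ | |v.1| + |v.2| ≤ 1} I ∧
    ∀ n m : ℕ, 2 ≤ n → 1 ≤ m → m < 2 * n → ∀ z : ℤ × ℤ, z ≠ (0, 0) →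
      (z ∈ Tips n → chord n m z = 0) ∧
      chord n m z ≤ cz m z * cz (2 * n - m) z ∧
      (z ∉ Tips n → Real.exp (-(K * Real.log n ^ 2)) * (cz m z * cz (2 * n - m) z) ≤
        chord n m z) ∧
      (chord n m z / loops n : ℝ) ≤ Real.exp (K * Real.log n ^ 2) *
        ((cz m z / c m) * (cz (2 * n - m) z / c (2 * n - m))) ∧
      (z ∉ Tips n → Real.exp (-(K * Real.log n ^ 2)) *
        ((cz m z / c m) * (cz (2 * n - m) z / c (2 * n - m))) ≤ (chord n m z / loops n : ℝ)) ∧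
      (2 ≤ m → m + 2 ≤ 2 * n → z ∉ Tips n → (z.1 + z.2 - m) % 2 = 0 → |z.1| + |z.2| ≤ m →
        |z.1| + |z.2| + m ≤ 2 * n → 0 < chord n m z ∧
        |Real.log (chord n m z / μ ^ (2 * n)) + (m * I ((z.1 : ℝ) / m, (z.2 : ℝ) / m) +
          (2 * n - m) * I ((z.1 : ℝ) / (2 * n - m), (z.2 : ℝ) / (2 * n - m)))| ≤
          K * Real.log n ^ 2) := by
  obtain ⟨K1, hK1, h1⟩ := U262.SW.chord_law
  obtain ⟨K2, hK2, h2⟩ := Y981.L2.ldp_words
  obtain ⟨K3, hK3, h3⟩ := U262.SW.chord_lo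
  obtain ⟨K4, hK4, h4, -⟩ := TH795.EP2.exists_K
  have hmu := H981.mu_pos
  refine ⟨H981.mu, K1 + 8 * K2 + 4 * K3 + 8 * K4, Y981.L2.Rate, hmu, ?_,
    Y981.L2.convex_rate, ?_⟩
  · have h := H981.tendsto_root
    refine h.congr ?_
    intro n
    rw [c_eq, TH795.EP.c_eq]
  intro n m hn hm hmn z hz
  have hl : 0 ≤ Real.log (n : ℝ) ^ 2 := by positivity
  have u1 : 0 ≤ K1 * Real.log (n : ℝ) ^ 2 := by positivity
  have u2 : 0 ≤ K2 * Real.log (n : ℝ) ^ 2 := by positivity
  have u3 : 0 ≤ K3 * Real.log (n : ℝ) ^ 2 := by positivity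
  have u4 : 0 ≤ K4 * Real.log (n : ℝ) ^ 2 := by positivity
  have hinv : ∀ A B X Y : ℝ, A ≤ B → 0 ≤ Y → X ≤ Real.exp A * Y → Real.exp (-B) * X ≤ Y := by
    intro A B X Y hAB hY hX
    calc Real.exp (-B) * X ≤ Real.exp (-B) * (Real.exp A * Y) := by gcongr
      _ = Real.exp (A - B) * Y := by rw [← mul_assoc, ← Real.exp_add]; congr 2; ring
      _ ≤ 1 * Y := by
          have : Real.exp (A - B) ≤ 1 := by rw [Real.exp_le_one_iff]; linarith
          gcongr
      _ = Y := one_mul _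
  obtain ⟨k1, k2⟩ := h1 n hn m hm hmn z hz
  have hlo : z ∉ Tips n → (TH795.EP.a m z.1 z.2 : ℝ) * TH795.EP.a (2 * n - m) z.1 z.2 ≤
      Real.exp (4 * K3 * Real.log n ^ 2) * (U262.SW.LM (2 * n) m z).ncard := by
    intro hext
    refine (h3 n hn m hm hmn z hz hext).trans ?_
    exact mul_le_mul_of_nonneg_right (U262.SW.q_two hn hK3) (Nat.cast_nonneg _)
  rw [chord_eq, loops_eq, cz_eq, cz_eq, c_eq, c_eq]
  have hup : (U262.SW.LM (2 * n) m z).ncard ≤
      TH795.EP.a m z.1 z.2 * TH795.EP.a (2 * n - m) z.1 z.2 := U262.SW.chord_upper hm hmn z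
  have hL0 : (0 : ℝ) ≤ (U262.SW.LM (2 * n) m z).ncard := Nat.cast_nonneg _
  refine ⟨?_, hup, ?_, ?_, ?_, ?_⟩
  · intro hext
    rw [U262.SW.LM_ext hn hm hmn hext, Set.ncard_empty]
  · intro hext
    exact hinv _ _ _ _ (by nlinarith) hL0 (hlo hext)
  · refine k1.trans (mul_le_mul_of_nonneg_right (Real.exp_le_exp.2 ?_) (by positivity))
    nlinarith
  · intro hext
    exact hinv (K1 * Real.log n ^ 2) _ _ _ (by nlinarith) (by positivity) (k2 hext)
  · intro hm2 hmn2 hext hpar hle1 hle2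
    have hcast : ((2 * n - m : ℕ) : ℝ) = 2 * n - m := by
      rw [Nat.cast_sub (by omega)]; push_cast; ring
    have hz' : (z.1, z.2) ≠ ((0, 0) : ℤ × ℤ) := hz
    have hle2' : |z.1| + |z.2| ≤ ((2 * n - m : ℕ) : ℤ) := by omega
    have hpar' : (z.1 + z.2 - ((2 * n - m : ℕ) : ℤ)) % 2 = 0 := by omega
    have a1 : (0 : ℝ) < TH795.EP.a m z.1 z.2 := by
      exact_mod_cast TH795.SE2.one_le_a hz' hpar hle1
    have a2 : (0 : ℝ) < TH795.EP.a (2 * n - m) z.1 z.2 := by
      exact_mod_cast TH795.SE2.one_le_a hz' hpar' hle2'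
    have g1 := h2 m hm2 z.1 z.2 hz' hpar hle1
    have g2 := h2 (2 * n - m) (by omega) z.1 z.2 hz' hpar' hle2'
    have lo := hlo hext
    have hpos : (0 : ℝ) < (U262.SW.LM (2 * n) m z).ncard := by
      by_contra hcon
      have : ((U262.SW.LM (2 * n) m z).ncard : ℝ) = 0 := le_antisymm (not_lt.1 hcon) hL0
      rw [this, mul_zero] at lo
      have := mul_pos a1 a2
      linarith
    refine ⟨by exact_mod_cast hpos, ?_⟩
    have c1 := TH795.EP2.c_pos m
    have c2 := TH795.EP2.c_pos (2 * n - m)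
    -- the numbers of walks
    have hN : ∀ k : ℕ, k ≤ 2 * n → k * Real.log H981.mu ≤ Real.log (TH795.EP.c k) ∧
        Real.log (TH795.EP.c k) ≤ k * Real.log H981.mu + 4 * K4 * Real.log n ^ 2 := by
      intro k hk
      have ck := TH795.EP2.c_pos k
      have e1 : H981.mu ^ k ≤ (TH795.EP.c k : ℝ) := by
        rw [TH795.EP.c_eq]; exact H981.mu_pow_le _
      have e2 := h4 (2 * n) (by omega) k hk
      have e3 := Real.log_le_log (pow_pos hmu k) e1
      have e4 := Real.log_le_log ck (e2.trans (mul_le_mul_of_nonneg_left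
        (U262.SW.q_two hn hK4) (pow_pos hmu k).le))
      rw [Real.log_pow] at e3
      rw [Real.log_mul (pow_pos hmu k).ne' (TH795.EP2.q_pos _ _).ne', Real.log_pow] at e4
      unfold TH795.EP2.q at e4
      rw [Real.log_exp] at e4
      exact ⟨e3, e4⟩
    obtain ⟨n1, n2⟩ := hN m (by omega)
    obtain ⟨n3, n4⟩ := hN (2 * n - m) (by omega)
    -- the errors
    have l1 := Y981.L2.log_two_mul hn
    have hs : ∀ k : ℕ, 1 ≤ k → k ≤ 2 * n →
        K2 * Real.log (k : ℝ) ^ 2 ≤ 4 * K2 * Real.log n ^ 2 := by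
      intro k hk1 hk
      have e0 : 0 ≤ Real.log (k : ℝ) := Real.log_natCast_nonneg _
      have e1 : Real.log (k : ℝ) ≤ Real.log ((2 * n : ℕ) : ℝ) :=
        Real.log_le_log (by exact_mod_cast hk1) (by exact_mod_cast hk)
      have e2 := pow_le_pow_left₀ e0 (e1.trans l1) 2
      calc K2 * Real.log (k : ℝ) ^ 2 ≤ K2 * (2 * Real.log n) ^ 2 :=
            mul_le_mul_of_nonneg_left e2 hK2
        _ = _ := by ring
    have s1 := hs m hm (by omega)
    have s2 := hs (2 * n - m) (by omega) (by omega)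
    rw [Real.log_div a1.ne' c1.ne'] at g1
    rw [Real.log_div a2.ne' c2.ne'] at g2
    rw [hcast] at g2 n3 n4 s2
    obtain ⟨g3, g4⟩ := abs_le.1 g1
    obtain ⟨g5, g6⟩ := abs_le.1 g2
    have m1 := Real.log_le_log (mul_pos a1 a2) lo
    rw [Real.log_mul a1.ne' a2.ne', Real.log_mul (Real.exp_pos _).ne' hpos.ne',
      Real.log_exp] at m1
    have hup' : ((U262.SW.LM (2 * n) m z).ncard : ℝ) ≤
        (TH795.EP.a m z.1 z.2 : ℝ) * TH795.EP.a (2 * n - m) z.1 z.2 := by exact_mod_cast hup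
    have m2 := Real.log_le_log hpos hup'
    rw [Real.log_mul a1.ne' a2.ne'] at m2
    rw [Real.log_div hpos.ne' (pow_pos hmu _).ne', Real.log_pow]
    push_cast
    rw [abs_le]
    constructor <;> nlinarith

end Pool.Agent.Results.MP_376faf_co.ChordCounts
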