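import Pool.Agent.U443.GL.Po2

/-!
# Local limits of self-avoiding polygons

The uniform self-avoiding polygon with perimeter `2n` on the square lattice, also given any property
which does not depend on the root and is not exponentially unlikely, looks near its vertices like a
stationary random two-sided infinite self-avoiding walk which satisfies the
Dobrushin-Lanford-Ruelle equations with the critical weight `(1 / μ) ^ (number of edges)`.

Definitions (`Pool.Agent.U443.LG.*`, `Pool.Agent.U443.OS.*`, `Pool.Agent.U443.GL.*`), for the square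
lattice `sqG` with neighbours `|x - x'| + |y - y'| = 1` and all translations:
* `WL sqG n`: the self-avoiding walks from `0` with `n` steps;
* `Cfg`: configurations `η` of open edges; `Cyl R S`: in the finite window `R` exactly the edges of
  `S` are open; `Vis sqG x η`: the vertex `x` is on an open edge;
* `Line sqG η`: the open edges of `η` are the edges `γ i, γ (i + 1)`, `i ∈ ℤ`, of one two-sided
  infinite self-avoiding walk `γ : ℤ → ℤ × ℤ` of the lattice with `γ 0 = 0`;
* `Inf sqG x κ P`: `P` is a probability measure on the configurations; `Line sqG η` almost surely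
  (`line`); the DLR equations `Dlr sqG x P` (`dlr`): for all states `A, A' ⊆ Λ` of a finite window
  `Λ` and all measurable events `C` which do not depend on the edges in `Λ` and on which both states
  give a configuration with `Line`, `P(state A, C) / x ^ |A| = P(state A', C) / x ^ |A'|`; `P` is
  stationary as the law of a configuration seen from one of its vertices (`stat`:
  `P(g visited, η ∈ D) = P(-g visited, mv g η ∈ D)` for all `g`); and for a vertex `y` at graph
  distance at most `d` (`Within`) of `0`, the event `Far sqG y m` that `y` is visited and not joined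
  to `0` by at most `m` open edges has probability at most `κ d m` (`far`);
* `kap K d m = K ^ (d + 1) (log m)² / m`;
* `pvw f x`: the configuration of the edges `f i, f (i + 1)` of the loop `f`, translated by `-x`;
* `ArcClose x κ ε R f i k`: for some `P` with `Inf sqG x κ P` the proportion of the vertices `y` of the
  arc `f i, f (i + 1), …, f (i + k)` from which the polygon shows the state `S` in the window `R`
  (`pvw f y ∈ Cyl R S`) is `P(Cyl R S)` up to `ε`, for all `S ⊆ R`;
* `TypP x κ ε R m f`: this is so for all arcs of the polygon `f` with `k ≥ m` steps, `k + 1 ≤ 2n`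
  (so also for the whole polygon: `k = 2n - 1`).
-/

set_option autoImplicit false

namespace Pool.Agent.Results.MP_376faf_co.PolygonLimits

open Filter Topology MeasureTheory U443.LG U443.OS U443.GL
open scoped Classical

/-- a closed nearest-neighbour loop on `ℤ²` with `m` steps, rooted at the origin and oriented,
that visits no vertex twice -/
def IsLoop (m : ℕ) (f : ZMod m → ℤ × ℤ) : Prop :=
  f 0 = 0 ∧ Function.Injective f ∧
    ∀ i : ZMod m, |(f (i + 1)).1 - (f i).1| + |(f (i + 1)).2 - (f i).2| = 1

/-- the loop `f` with the root and time `0` at its vertex `f i` -/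
def reroot {m : ℕ} (i : ZMod m) (f : ZMod m → ℤ × ℤ) : ZMod m → ℤ × ℤ := fun j => f (i + j) - f i

/-- the probability of the property `Q` for the uniform (rooted, oriented) self-avoiding polygon
with perimeter `2n` -/
noncomputable def prob (n : ℕ) (Q : (ZMod (2 * n) → ℤ × ℤ) → Prop) : ℝ :=
  (Nat.card {f : ZMod (2 * n) → ℤ × ℤ // IsLoop (2 * n) f ∧ Q f} : ℝ) /
    Nat.card {f : ZMod (2 * n) → ℤ × ℤ // IsLoop (2 * n) f}

open Pool.Agent.TH546.SAW (IsL PL mem_PL rt rt_mem PL_nonempty)

theorem num_eq {n : ℕ} (hn : 1 ≤ n) (Q : (ZMod (2 * n) → ℤ × ℤ) → Prop) :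
    Nat.card {f : ZMod (2 * n) → ℤ × ℤ // IsLoop (2 * n) f ∧ Q f} = ((PL n).filter Q).card := by
  rw [← Fintype.card_coe, ← Nat.card_eq_fintype_card]
  apply Nat.card_congr
  apply Equiv.subtypeEquivRight
  intro f
  rw [Finset.mem_filter, mem_PL hn]
  exact Iff.rfl

theorem num_all {n : ℕ} (hn : 1 ≤ n) :
    Nat.card {f : ZMod (2 * n) → ℤ × ℤ // IsLoop (2 * n) f} = (PL n).card := by
  rw [← Fintype.card_coe, ← Nat.card_eq_fintype_card]
  apply Nat.card_congr
  apply Equiv.subtypeEquivRight
  intro f
  rw [mem_PL hn]
  exact Iff.rfl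

theorem prob_eq {n : ℕ} (hn : 1 ≤ n) (Q : (ZMod (2 * n) → ℤ × ℤ) → Prop) :
    prob n Q = (((PL n).filter Q).card : ℝ) / (PL n).card := by
  unfold prob
  rw [num_eq hn, num_all hn]

/-- **Theorem.** On the square lattice let `μ` be the connective constant, the limit of
`c_n ^ (1 / n)` for the number `c_n = |WL sqG n|` of `n`-step self-avoiding walks. There is `K` such
that for every finite window `R` and every `ε > 0`:
(1) There are `c > 0` and `C` such that for all `n ≥ 2` and `m ≥ C (log n)²` the uniform
self-avoiding polygon with perimeter `2n` has the following property with probability at least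
`1 - e^(-cm)`: for each of its arcs with at least `m` steps there is a measure `P` with
`Inf sqG (1 / μ) (kap K) P` such that the polygon, seen from a uniform vertex of the arc, shows every
state of `R` with the probability it has under `P`, up to `ε`.
(2) There are `δ > 0` and `n₀` such that for all `n ≥ n₀` and all properties `Q` of the polygon which
do not depend on its root and have probability at least `e^(-δn)` (for example `Q = True`) there is
such a measure `P` such that given `Q` the uniform polygon with perimeter `2n`, seen from its root (a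
uniform vertex), shows every state of `R` with the probability it has under `P`, up to `ε`. -/
theorem result :
    ∃ μ : ℝ, 1 ≤ μ ∧
    Tendsto (fun n : ℕ => ((WL sqG n).card : ℝ) ^ (1 / (n : ℝ))) atTop (𝓝 μ) ∧
    ∃ K : ℕ, 1 ≤ K ∧ ∀ (R : Finset (Sym2 (ℤ × ℤ))) (ε : ℝ), 0 < ε →
    -- (1)
    (∃ c C : ℝ, 0 < c ∧ ∀ n : ℕ, 2 ≤ n → ∀ m : ℕ, C * Real.log n ^ 2 ≤ m →
      prob n (fun f => ¬ TypP (1 / μ) (kap K) ε R m f) ≤ Real.exp (-(c * m))) ∧
    -- (2)
    ∃ δ : ℝ, 0 < δ ∧ ∃ n₀ : ℕ, ∀ n : ℕ, n₀ ≤ n → ∀ Q : (ZMod (2 * n) → ℤ × ℤ) → Prop,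
      (∀ f, IsLoop (2 * n) f → ∀ i, (Q (reroot i f) ↔ Q f)) →
      Real.exp (-(δ * n)) ≤ prob n Q →
      ∃ P : Measure (Cfg (ℤ × ℤ)), Inf sqG (1 / μ) (kap K) P ∧ ∀ S, S ⊆ R →
        |prob n (fun f => Q f ∧ pvw f 0 ∈ Cyl R S) / prob n Q - P.real (Cyl R S)| ≤ ε := by
  refine ⟨H981.mu, H981.one_le_mu, z2_tendsto, ?_⟩
  obtain ⟨K, hK1, hth⟩ := thin lat2
  refine ⟨K, hK1, fun R ε hε => ?_⟩
  obtain ⟨c, C, hc, h1⟩ := poly_pieces hth R hε
  obtain ⟨δ, hδ, n0, hn0, h2⟩ := poly_law hth R hε
  refine ⟨⟨c, C, hc, fun n hn m hm => ?_⟩, δ, hδ, n0, fun n hn => ?_⟩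
  · have h3 := h1 n hn m hm
    have hpos : (0 : ℝ) < (PL n).card := by exact_mod_cast (PL_nonempty hn).card_pos
    rw [prob_eq (by omega), div_le_iff₀ hpos]
    refine le_trans (le_of_eq ?_) h3
    congr!
  · have hn2 : 2 ≤ n := le_trans hn0 hn
    have hn1 : 1 ≤ n := by omega
    have hpos : (0 : ℝ) < (PL n).card := by exact_mod_cast (PL_nonempty hn2).card_pos
    intro Q hQ hp
    rw [prob_eq hn1, le_div_iff₀ hpos] at hp
    obtain ⟨P, hP, h4⟩ := h2 n hn Q (fun f hf i => hQ f hf i) (by convert hp)
    refine ⟨P, hP, fun S hS => ?_⟩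
    have h5 := h4 S hS
    rw [prob_eq hn1, prob_eq hn1, div_div_div_cancel_right₀ hpos.ne']
    rw [Finset.filter_filter] at h5
    convert h5

end Pool.Agent.Results.MP_376faf_co.PolygonLimits
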