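import Pool.Agent.U262.SW.Y

/-!
The number of planar self-avoiding polygons with a symmetry.
-/

set_option autoImplicit false

open Filter Topology

namespace Pool.Agent.Results.MP_376faf_co.SymmetricPolygons

/-- a closed nearest-neighbour loop on `ℤ²` with `m` steps, rooted at the origin and oriented,
that visits no vertex twice -/
def IsLoop (m : ℕ) (f : ZMod m → ℤ × ℤ) : Prop :=
  f 0 = 0 ∧ Function.Injective f ∧
    ∀ i : ZMod m, |(f (i + 1)).1 - (f i).1| + |(f (i + 1)).2 - (f i).2| = 1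

/-- the number of rooted oriented loops of perimeter `2 n` (four times `n` times the number
`p_{2n}` of polygons up to translation) -/
noncomputable def loops (n : ℕ) : ℕ := {f : ZMod (2 * n) → ℤ × ℤ | IsLoop (2 * n) f}.ncard

/-- the linear isometries of the square lattice (the identity, the half-turn, the two
quarter-turns, the two reflections in the axes and the two reflections in the diagonals) -/
def IsIsometry (σ : ℤ × ℤ → ℤ × ℤ) : Prop :=
  (∀ p r, σ (p + r) = σ p + σ r) ∧ ∀ p, |(σ p).1| + |(σ p).2| = |p.1| + |p.2|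

/-- the loop is mapped to itself by `p ↦ σ p + v` for some vector `v`, with or without a change of
the orientation -/
def Invariant (σ : ℤ × ℤ → ℤ × ℤ) {m : ℕ} (f : ZMod m → ℤ × ℤ) : Prop :=
  ∃ (v : ℤ × ℤ) (s : ZMod m), (∀ i, f (s + i) = σ (f i) + v) ∨ ∀ i, f (s - i) = σ (f i) + v

/-- the number of loops of perimeter `2 n` that are invariant with the linear part `σ` -/
noncomputable def inv (n : ℕ) (σ : ℤ × ℤ → ℤ × ℤ) : ℕ :=
  {f : ZMod (2 * n) → ℤ × ℤ | IsLoop (2 * n) f ∧ Invariant σ f}.ncard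

/-- the number of loops of perimeter `2 n` with a symmetry other than the identity -/
noncomputable def symmetric (n : ℕ) : ℕ :=
  {f : ZMod (2 * n) → ℤ × ℤ | IsLoop (2 * n) f ∧ ∃ σ, IsIsometry σ ∧ σ ≠ (fun p => p) ∧
    Invariant σ f}.ncard

/-- `ω` is an `n`-step self-avoiding walk on `ℤ²` started at the origin. -/
def IsSAW (n : ℕ) (ω : Fin (n + 1) → ℤ × ℤ) : Prop :=
  ω 0 = (0, 0) ∧
  (∀ i : Fin n, |(ω i.succ).1 - (ω i.castSucc).1| + |(ω i.succ).2 - (ω i.castSucc).2| = 1) ∧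
  Function.Injective ω

/-- `c_n`: the number of `n`-step self-avoiding walks from the origin -/
noncomputable def c (n : ℕ) : ℕ := Nat.card {ω : Fin (n + 1) → ℤ × ℤ // IsSAW n ω}

theorem c_eq (n : ℕ) : c n = TH795.EP.c n := TH795.EP2.card_walks n

theorem inv_eq (n : ℕ) (σ : ℤ × ℤ → ℤ × ℤ) : inv n σ = (U262.SW.Sym σ n).ncard := rfl

theorem loops_eq (n : ℕ) : loops n = Y981.L2.ln n := rfl

theorem symmetric_eq (n : ℕ) : symmetric n = (U262.SW.AllSym n).ncard := by
  unfold symmetric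
  congr 1
  ext f
  constructor
  · rintro ⟨h1, σ, h2, h3, v, s, h4⟩
    exact ⟨σ, h2, h3, h1, v, s, h4⟩
  · rintro ⟨σ, h2, h3, h1, v, s, h4⟩
    exact ⟨h1, σ, h2, h3, v, s, h4⟩

/-- **Theorem.** Let `μ = lim c_n^(1/n)`.  There is `K` such that for all `n ≥ 2`, with
`E = exp (K (log n)^2)`:
(1) the number of rooted oriented self-avoiding loops of perimeter `2 n` with a symmetry other than
the identity is at most `μ^n E`;
(2) the number of those which are invariant under a half-turn is between `μ^n / E` and `μ^n E`, and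
the same holds for the reflections in horizontal lines and for those in vertical lines;
(3) if `n` is even the same holds for the reflections in the lines parallel to one diagonal, and to
the other;
(4) the proportion of the loops with a symmetry other than the identity among all loops of
perimeter `2 n` is between `μ^(-n) / E` and `μ^(-n) E`. -/
theorem result : ∃ μ K : ℝ, 0 < μ ∧
    Tendsto (fun n : ℕ => (c n : ℝ) ^ ((1:ℝ) / (n : ℝ))) atTop (𝓝 μ) ∧
    ∀ n : ℕ, 2 ≤ n →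
      (symmetric n : ℝ) ≤ μ ^ n * Real.exp (K * Real.log n ^ 2) ∧
      (∀ σ : ℤ × ℤ → ℤ × ℤ, σ = (fun p => (-p.1, -p.2)) ∨ σ = (fun p => (p.1, -p.2)) ∨
        σ = (fun p => (-p.1, p.2)) →
        μ ^ n * Real.exp (-(K * Real.log n ^ 2)) ≤ inv n σ ∧
        (inv n σ : ℝ) ≤ μ ^ n * Real.exp (K * Real.log n ^ 2)) ∧
      (Even n → ∀ σ : ℤ × ℤ → ℤ × ℤ, σ = (fun p => (p.2, p.1)) ∨ σ = (fun p => (-p.2, -p.1)) →
        μ ^ n * Real.exp (-(K * Real.log n ^ 2)) ≤ inv n σ ∧
        (inv n σ : ℝ) ≤ μ ^ n * Real.exp (K * Real.log n ^ 2)) ∧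
      Real.exp (-(K * Real.log n ^ 2)) / μ ^ n ≤ (symmetric n : ℝ) / loops n ∧
      (symmetric n : ℝ) / loops n ≤ Real.exp (K * Real.log n ^ 2) / μ ^ n := by
  obtain ⟨K1, hK1, h1⟩ := U262.SW.sym_law
  obtain ⟨K2, hK2, h2⟩ := U262.SW.ln_law
  have hmu := H981.mu_pos
  refine ⟨H981.mu, K1 + K2, hmu, ?_, ?_⟩
  · have h := H981.tendsto_root
    refine h.congr ?_
    intro n
    rw [c_eq, TH795.EP.c_eq]
  intro n hn
  obtain ⟨⟨a1, a2, a3, a4⟩, a5⟩ := h1 n hn
  obtain ⟨b1, b2⟩ := h2 n hn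
  have hl : 0 ≤ Real.log (n : ℝ) ^ 2 := by positivity
  have hm0 : 0 < H981.mu ^ n := pow_pos hmu n
  have hq : ∀ A : ℝ, TH795.EP2.q n A = Real.exp (A * Real.log n ^ 2) := fun A => rfl
  have neg_eq : Real.exp (-((K1 + K2) * Real.log n ^ 2)) = TH795.EP2.q n (-(K1 + K2)) := by
    rw [hq]; congr 1; ring
  have pos_eq : Real.exp ((K1 + K2) * Real.log n ^ 2) = TH795.EP2.q n (K1 + K2) := rfl
  rw [neg_eq, pos_eq]
  have lo : H981.mu ^ n * TH795.EP2.q n (-(K1 + K2)) ≤ H981.mu ^ n * TH795.EP2.q n (-K1) := by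
    apply mul_le_mul_of_nonneg_left _ hm0.le
    exact TH795.EP2.q_mono hn (by linarith)
  have hi : H981.mu ^ n * TH795.EP2.q n K1 ≤ H981.mu ^ n * TH795.EP2.q n (K1 + K2) := by
    apply mul_le_mul_of_nonneg_left _ hm0.le
    exact TH795.EP2.q_mono hn (by linarith)
  have up : ∀ σ : ℤ × ℤ → ℤ × ℤ, IsIsometry σ → σ ≠ (fun p => p) →
      (inv n σ : ℝ) ≤ H981.mu ^ n * TH795.EP2.q n K1 := by
    intro σ hσ hne
    refine le_trans ?_ a5
    rw [inv_eq]
    have : (U262.SW.Sym σ n).ncard ≤ (U262.SW.AllSym n).ncard :=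
      Set.ncard_le_ncard (fun f hf => ⟨σ, hσ, hne, hf⟩) (U262.SW.AllSym_fin (by omega))
    exact_mod_cast this
  have ne1 : ∀ (τ : ℤ × ℤ → ℤ × ℤ) (p : ℤ × ℤ), τ p ≠ p → τ ≠ (fun p => p) := by
    intro τ p h1 h2
    exact h1 (congrFun h2 p)
  have i1 : IsIsometry fun p => (-p.1, -p.2) := U262.SW.isom_rot
  have i2 : IsIsometry fun p => (p.1, -p.2) := U262.SW.isom_axis
  have i3 : IsIsometry fun p => (-p.1, p.2) := U262.SW.isom_axis'
  have i4 : IsIsometry fun p => (p.2, p.1) := U262.SW.isom_diag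
  have i5 : IsIsometry fun p => (-p.2, -p.1) :=
    ⟨fun p r => by ext <;> simp <;> ring, fun p => by simp only [abs_neg]; ring⟩
  have l0 : (0 : ℝ) < loops n := by
    rw [loops_eq]
    exact lt_of_lt_of_le (mul_pos (pow_pos hmu _) (TH795.EP2.q_pos _ _)) b1
  have e2 : H981.mu ^ (2 * n) = H981.mu ^ n * H981.mu ^ n := by rw [← pow_add]; congr 1; ring
  refine ⟨?_, ?_, ?_, ?_, ?_⟩
  · rw [symmetric_eq]
    exact a5.trans hi
  · rintro σ (rfl | rfl | rfl)
    · exact ⟨lo.trans a1, (up _ i1 (ne1 _ (1, 0) (by decide))).trans hi⟩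
    · exact ⟨lo.trans a2, (up _ i2 (ne1 _ (0, 1) (by decide))).trans hi⟩
    · exact ⟨lo.trans a3, (up _ i3 (ne1 _ (1, 0) (by decide))).trans hi⟩
  · intro he
    obtain ⟨a4, a4'⟩ := a4 he
    rintro σ (rfl | rfl)
    · exact ⟨lo.trans a4, (up _ i4 (ne1 _ (1, 0) (by decide))).trans hi⟩
    · exact ⟨lo.trans a4', (up _ i5 (ne1 _ (1, 0) (by decide))).trans hi⟩
  · rw [div_le_div_iff₀ hm0 l0, symmetric_eq]
    have h3 : (U262.SW.Sym (fun p => (-p.1, -p.2)) n).ncard ≤ (U262.SW.AllSym n).ncard :=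
      Set.ncard_le_ncard (fun f hf => ⟨_, U262.SW.isom_rot, ne1 _ (1, 0) (by decide), hf⟩)
        (U262.SW.AllSym_fin (by omega))
    have h4 : H981.mu ^ n * TH795.EP2.q n (-K1) ≤ (U262.SW.AllSym n).ncard :=
      a1.trans (by exact_mod_cast h3)
    calc TH795.EP2.q n (-(K1 + K2)) * loops n
        ≤ TH795.EP2.q n (-(K1 + K2)) * (H981.mu ^ (2 * n) * TH795.EP2.q n K2) :=
          mul_le_mul_of_nonneg_left b2 (TH795.EP2.q_pos _ _).le
      _ = (H981.mu ^ n * TH795.EP2.q n (-K1)) * H981.mu ^ n := by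
          rw [e2]
          have : TH795.EP2.q n (-K1) = TH795.EP2.q n (-(K1 + K2)) * TH795.EP2.q n K2 := by
            rw [TH795.EP2.q_mul]; congr 1; ring
          rw [this]; ring
      _ ≤ _ := mul_le_mul_of_nonneg_right h4 hm0.le
  · rw [div_le_div_iff₀ l0 hm0, symmetric_eq]
    calc ((U262.SW.AllSym n).ncard : ℝ) * H981.mu ^ n
        ≤ (H981.mu ^ n * TH795.EP2.q n K1) * H981.mu ^ n :=
          mul_le_mul_of_nonneg_right a5 hm0.le
      _ = TH795.EP2.q n (K1 + K2) * (H981.mu ^ (2 * n) * TH795.EP2.q n (-K2)) := by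
          rw [e2]
          have : TH795.EP2.q n K1 = TH795.EP2.q n (K1 + K2) * TH795.EP2.q n (-K2) := by
            rw [TH795.EP2.q_mul]; congr 1; ring
          rw [this]; ring
      _ ≤ TH795.EP2.q n (K1 + K2) * loops n :=
          mul_le_mul_of_nonneg_left b1 (TH795.EP2.q_pos _ _).le

end Pool.Agent.Results.MP_376faf_co.SymmetricPolygons
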