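import Pool.Agent.U611.TB.Par
import Pool.Agent.Results.MP_d98d96_pr.DoublingExpansions
import Pool.Agent.Results.MP_376faf_co.AllOrders

/-!
Self-avoiding polygons on the square lattice: the asymptotic form of their number from that of
weighted sums over the perimeter.
-/

set_option autoImplicit false

namespace Pool.Agent.Results.MP_376faf_co.WeightedSums

open Filter Topology

open Pool.Agent.Results.MP_376faf_co.AllOrders in
/-- The weighted sum: the sum of `(n + 1)^m (c_{2n-1} / μ^(2n-1))^τ p_{2n} / μ^(2n)` over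
`n = ρ, ρ + 1, …, ρ + k` (`p n` is the number of polygons of perimeter `2n`). For `τ = 0` it is a
truncated generating function at the critical point; for `τ = -1` and `m = 1` the terms are, up to
the factor `4 μ n / (n + 1)`, the probabilities that the end points of the `(2n-1)`-step walk are
neighbours. -/
noncomputable def wsum (μ τ m : ℝ) (ρ k : ℕ) : ℝ :=
  ∑ i ∈ Finset.range (k + 1), (((i + ρ + 1 : ℕ) : ℝ)) ^ m *
    ((c (2 * (i + ρ) - 1) / μ ^ (2 * (i + ρ) - 1)) ^ τ * (p (i + ρ) / μ ^ (2 * (i + ρ))))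

/-- The expansion `β log n + ∑ a_i n ^ (-θ_i)`. -/
noncomputable def expansion (q : ℕ) (β : ℝ) (a θ : Fin q → ℝ) (n : ℕ) : ℝ :=
  β * Real.log n + ∑ i, a i * (n : ℝ) ^ (-(θ i))

/-- the difference of order `r` of the sequence `f` at `n` (up to the sign `(-1)^r`) -/
noncomputable def diff (r : ℕ) (f : ℕ → ℝ) (n : ℕ) : ℝ :=
  ∑ i ∈ Finset.range (r + 1), (-1 : ℝ) ^ i * (r.choose i : ℝ) * f (n + i)

/-! ### the data from the library -/

open Pool.Agent.N226.SX Pool.Agent.U611.TB Pool.Agent.Results.MP_376faf_co.AllOrders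

theorem c_eq' (n : ℕ) : (c n : ℝ) = MP_d98d96_pr.DoublingExpansions.a .square n := by
  unfold c MP_d98d96_pr.DoublingExpansions.a MP_d98d96_pr.DoublingExpansions.walks
    MP_d98d96_pr.DoublingExpansions.Adj
  rw [← Nat.card_coe_set_eq]
  congr 1
  refine Nat.card_congr (Equiv.subtypeEquivRight fun ω => ?_)
  constructor
  · rintro ⟨h0, h2, h3⟩
    refine ⟨h0, h2, fun i => ?_⟩
    show |(ω i.castSucc).1 - (ω i.succ).1| + |(ω i.castSucc).2 - (ω i.succ).2| = 1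
    rw [abs_sub_comm, abs_sub_comm (ω i.castSucc).2]
    exact h3 i
  · rintro ⟨h0, h3, h2⟩
    refine ⟨h0, h3, fun i => ?_⟩
    have h4 : |(ω i.castSucc).1 - (ω i.succ).1| + |(ω i.castSucc).2 - (ω i.succ).2| = 1 := h2 i
    rw [abs_sub_comm, abs_sub_comm (ω i.succ).2]
    exact h4

theorem p_pos (n : ℕ) (hn : 2 ≤ n) : 0 < p n := by
  have h := Pool.Agent.N929.EZ.KP_pos (n := 2 * n - 1) (by omega) (by omega)
  rw [Pool.Agent.N929.EZ.KP_card hn] at h
  have h2 : (0 : ℝ) < n := by exact_mod_cast (by omega : 0 < n)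
  rw [p_eq]
  by_contra hcon
  push Not at hcon
  nlinarith

/-- what we use -/
structure Data (μ : ℝ) : Prop where
  hμ : 0 < μ
  cpos : ∀ n, 0 < (c n : ℝ)
  lim : Tendsto (fun n : ℕ => (c n : ℝ) ^ ((1 : ℝ) / (n : ℝ))) atTop (𝓝 μ)
  regc : ∀ ρ : ℕ, Reg (1 / 2) (fun k => Real.log ((c (2 * k + ρ) : ℝ) / μ ^ (2 * k + ρ)))
  regp : ∀ ρ : ℕ, Reg (1 / 2) (fun k => Real.log (p (k + ρ) / μ ^ (2 * (k + ρ))))

theorem data : ∃ μ : ℝ, Data μ := by
  obtain ⟨μ, hμ, hl, hd⟩ := AllOrders.result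
  obtain ⟨μ', D⟩ := MP_d98d96_pr.DoublingExpansions.data .square
  obtain ⟨hμ', hp, -, hl', -, hd'⟩ := D
  have he : μ' = μ := by
    refine tendsto_nhds_unique hl' ?_
    simpa only [c_eq'] using hl
  subst he
  refine ⟨μ', hμ, fun n => by rw [c_eq']; exact hp n, hl, fun ρ => ?_, fun ρ => ?_⟩
  · refine reg_of_log_st (f := fun n => Real.log ((c n : ℝ) / μ' ^ n)) 2 (by norm_num) ρ
      fun r hr => ?_
    obtain ⟨B, -, hB⟩ := hd' r hr
    refine ⟨B, (eventually_ge_atTop 2).mono fun n hn => ?_⟩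
    have := hB n hn
    simp only [c_eq']
    exact this
  · have h := reg_of_log_st (f := fun n => Real.log (p n / μ' ^ (2 * n))) 1 le_rfl ρ
      fun r hr => by
        obtain ⟨K, hK⟩ := hd r hr
        refine ⟨K, (eventually_ge_atTop 2).mono fun n hn => ?_⟩
        have := hK n hn
        unfold Ds
        simp only [one_mul]
        exact this
    simp only [one_mul] at h
    exact h

section

variable {μ : ℝ}

/-- the logarithms of the terms -/
noncomputable def f (μ τ : ℝ) (n : ℕ) : ℝ :=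
  τ * Real.log ((c (2 * n - 1) : ℝ) / μ ^ (2 * n - 1)) + Real.log (p n / μ ^ (2 * n))

theorem exp_f (D : Data μ) (τ : ℝ) (n : ℕ) (hn : 2 ≤ n) : Real.exp (f μ τ n) =
    (c (2 * n - 1) / μ ^ (2 * n - 1)) ^ τ * (p n / μ ^ (2 * n)) := by
  unfold f
  have h1 : 0 < (c (2 * n - 1) : ℝ) / μ ^ (2 * n - 1) := div_pos (D.cpos _) (pow_pos D.hμ _)
  rw [Real.exp_add, Real.exp_log (div_pos (p_pos n hn) (pow_pos D.hμ _)), mul_comm τ,
    Real.exp_mul, Real.exp_log h1]

theorem reg_f (D : Data μ) (τ : ℝ) (ρ : ℕ) (hρ : 2 ≤ ρ) :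
    Reg (1 / 2) (fun k => f μ τ (1 * k + ρ)) := by
  have h1 : Reg (1 / 2) (fun k => τ * Real.log ((c (2 * k + (2 * ρ - 1)) : ℝ) /
      μ ^ (2 * k + (2 * ρ - 1)))) := fun a h0 h r hr => (D.regc (2 * ρ - 1) a h0 h r hr).smul τ
  have h2 : Reg (1 / 2) (fun k => -1 * Real.log (p (k + ρ) / μ ^ (2 * (k + ρ)))) :=
    fun a h0 h r hr => (D.regp ρ a h0 h r hr).smul (-1)
  refine cast ?_ (h1.sub h2)
  congr 1
  funext k
  unfold f
  have e : 2 * (1 * k + ρ) - 1 = 2 * k + (2 * ρ - 1) := by omega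
  rw [e, one_mul]
  ring

theorem wsum_eq (D : Data μ) (τ m : ℝ) (ρ k : ℕ) (hρ : 2 ≤ ρ) :
    wsum μ τ m ρ k = TS 1 ρ m (f μ τ) k := by
  unfold wsum TS
  refine Finset.sum_congr rfl fun i _ => ?_
  rw [one_mul, exp_f D τ _ (by omega)]

end

/-- **Theorem.** Let `c_n` be the number of `n`-step self-avoiding walks on `ℤ²`,
`μ = lim c_n^(1/n)`, and `p_{2n}` the number of self-avoiding polygons of perimeter `2n`. Fix real
`τ`, `m` and an integer `ρ ≥ 2`, let `w_n = (n + 1)^m (c_{2n-1} / μ^(2n-1))^τ p_{2n} / μ^(2n)` and let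
`X(N)` be the sum of `w_n` over `ρ ≤ n ≤ N`. Let `E(n) = β log n + ∑ a_i n^(-θ_i)` with real `β`, `a_i`
and `θ_i ≥ 0`, let `M ≥ 0`, and let `v_j → ∞` be integers with gaps at most `v_j^e` for some
`e < 1 / 2`. Suppose that `log X(N) = E(N) + O(N^(-M))` along `N = v_j + ρ`. Then

(1) for all `r ≥ 0` and `b < 1 / 2` the `r`-th difference of `w_{N+1} - (exp E(N+1) - exp E(N))` is
`O(exp(E(N)) N^(-M - b (r + 1)))` along all `N`;

(2) if `M > 1 / 2` then `N^(m+1) (c_{2N-1} / μ^(2N-1))^τ (p_{2N} / μ^(2N)) / exp E(N) → β`;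

(3) in particular, if `M > 1 / 2` and the sum of `(n + 1)^m p_{2n} / μ^(2n)` over `ρ ≤ n ≤ N` is
`A N^β (1 + O(N^(-M)))` along `N = v_j + ρ`, with `A > 0`, then `p_{2N} μ^(-2N) N^(m+1-β) → A β`: this is the form of
Q1 if `β = m - 3/2 > 0`. -/
theorem result : ∃ μ : ℝ, 0 < μ ∧
    Tendsto (fun n : ℕ => (c n : ℝ) ^ ((1 : ℝ) / (n : ℝ))) atTop (𝓝 μ) ∧
    ∀ (τ m : ℝ) (ρ : ℕ), 2 ≤ ρ → ∀ (v : ℕ → ℕ) (e : ℝ),
      Tendsto v atTop atTop → 0 ≤ e → e < 1 / 2 →
      (∀ᶠ j : ℕ in atTop, (v (j + 1) : ℝ) ≤ v j + (v j : ℝ) ^ e) → ∀ (β M : ℝ), 0 ≤ M →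
      (∀ (q : ℕ) (a θ : Fin q → ℝ), (∀ i, 0 ≤ θ i) →
        (∃ K : ℝ, ∀ᶠ j : ℕ in atTop,
          |Real.log (wsum μ τ m ρ (v j)) - expansion q β a θ (v j + ρ)| ≤
            K * (v j : ℝ) ^ (-M)) →
        (∀ (r : ℕ) (b : ℝ), 0 ≤ b → b < 1 / 2 → ∃ K : ℝ, ∀ᶠ n : ℕ in atTop,
          |diff r (fun n => ((n + 2 : ℕ) : ℝ) ^ m *
              ((c (2 * (n + 1) - 1) / μ ^ (2 * (n + 1) - 1)) ^ τ *
                (p (n + 1) / μ ^ (2 * (n + 1)))) -
              (Real.exp (expansion q β a θ (n + 1)) - Real.exp (expansion q β a θ n))) n| ≤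
            K * Real.exp (expansion q β a θ n) * (n : ℝ) ^ (-(M + b * (r + 1)))) ∧
        (1 / 2 < M →
          Tendsto (fun n : ℕ => (n : ℝ) ^ (m + 1) *
            ((c (2 * n - 1) / μ ^ (2 * n - 1)) ^ τ * (p n / μ ^ (2 * n))) /
            Real.exp (expansion q β a θ n)) atTop (𝓝 β))) ∧
      ∀ A : ℝ, 0 < A → 1 / 2 < M →
        (∃ K : ℝ, ∀ᶠ j : ℕ in atTop,
          |wsum μ 0 m ρ (v j) / (A * ((v j + ρ : ℕ) : ℝ) ^ β) - 1| ≤ K * (v j : ℝ) ^ (-M)) →
        Tendsto (fun n : ℕ => p n / μ ^ (2 * n) * (n : ℝ) ^ (m + 1 - β)) atTop (𝓝 (A * β)) := by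
  obtain ⟨μ, D⟩ := data
  refine ⟨μ, D.hμ, D.lim, ?_⟩
  intro τ m ρ hρ v e hv he0 he hgap β M hM
  have hval2 : ∀ (τ : ℝ) (q : ℕ) (a θ : Fin q → ℝ), (∃ K : ℝ, ∀ᶠ j : ℕ in atTop,
          |Real.log (wsum μ τ m ρ (v j)) - expansion q β a θ (v j + ρ)| ≤
            K * (v j : ℝ) ^ (-M)) → ∃ K : ℝ, ∀ᶠ j : ℕ in atTop,
      |Real.log (TS 1 ρ m (f μ τ) (v j)) - G q β a θ ((1 * v j + ρ : ℕ) : ℝ)| ≤
        K * (v j : ℝ) ^ (-M) := by
    intro τ q a θ h
    simp only [← wsum_eq D τ m ρ _ hρ, one_mul]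
    exact h
  have hshift : ∀ (g : ℕ → ℝ) (x : ℝ), Tendsto (fun k : ℕ => g (1 * k + ρ)) atTop (𝓝 x) →
      Tendsto g atTop (𝓝 x) := by
    intro g x h
    simp only [one_mul] at h
    exact (tendsto_add_atTop_iff_nat ρ).1 h
  have hpart2 : ∀ (τ : ℝ) (q : ℕ) (a θ : Fin q → ℝ), (∀ i, 0 ≤ θ i) → 1 / 2 < M →
      (∃ K : ℝ, ∀ᶠ j : ℕ in atTop,
          |Real.log (wsum μ τ m ρ (v j)) - expansion q β a θ (v j + ρ)| ≤
            K * (v j : ℝ) ^ (-M)) →
      Tendsto (fun n : ℕ => (n : ℝ) ^ (m + 1) *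
            ((c (2 * n - 1) / μ ^ (2 * n - 1)) ^ τ * (p n / μ ^ (2 * n))) /
            Real.exp (expansion q β a θ n)) atTop (𝓝 β) := by
    intro τ q a θ hθ hM2 hval
    have h := pkg_two (by norm_num) (f := f μ τ) 1 le_rfl ρ (reg_f D τ ρ hρ) m v e hv
      he0 he hgap q β a θ hθ M hM (by linarith) (hval2 τ q a θ hval)
    refine hshift _ _ ?_
    have h1 : Tendsto (fun k : ℕ => ((1 * k + ρ : ℕ) : ℝ) ^ (m + 1) *
            ((c (2 * (1 * k + ρ) - 1) / μ ^ (2 * (1 * k + ρ) - 1)) ^ τ *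
              (p (1 * k + ρ) / μ ^ (2 * (1 * k + ρ)))) /
            Real.exp (G q β a θ ((1 * k + ρ : ℕ) : ℝ))) atTop (𝓝 ((1 : ℕ) * β)) := by
      refine h.congr fun k => ?_
      rw [exp_f D τ _ (by omega)]
    rw [Nat.cast_one, one_mul] at h1
    exact h1
  refine ⟨fun q a θ hθ hval => ⟨fun r b hb0 hb => ?_, fun hM2 => hpart2 τ q a θ hθ hM2 hval⟩, ?_⟩
  · obtain ⟨K, hK⟩ := pkg_one (by norm_num) (f := f μ τ) 1 le_rfl ρ (reg_f D τ ρ hρ) m v e hv
      he0 he hgap q β a θ hθ M hM (hval2 τ q a θ hval) r b hb0 hb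
    have hx : 0 ≤ M + b * (r + 1) := by positivity
    refine ⟨|K| * (2 : ℝ) ^ (M + b * (r + 1)), ?_⟩
    have hsub : Tendsto (fun n : ℕ => n - ρ) atTop atTop := tendsto_sub_atTop_nat ρ
    filter_upwards [hsub.eventually hK, eventually_ge_atTop (2 * ρ + 2)] with n hk hn
    obtain ⟨k, rfl⟩ : ∃ k, n = k + ρ := ⟨n - ρ, by omega⟩
    rw [Nat.add_sub_cancel] at hk
    have e1 : diff r (fun n => ((n + 2 : ℕ) : ℝ) ^ m *
              ((c (2 * (n + 1) - 1) / μ ^ (2 * (n + 1) - 1)) ^ τ *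
                (p (n + 1) / μ ^ (2 * (n + 1)))) -
              (Real.exp (expansion q β a θ (n + 1)) - Real.exp (expansion q β a θ n))) (k + ρ) =
        Ds 1 r (fun n => ((n + 1 + 1 : ℕ) : ℝ) ^ m * Real.exp (f μ τ (n + 1)) -
        (Real.exp (G q β a θ ((n + 1 : ℕ) : ℝ)) - Real.exp (G q β a θ (n : ℝ)))) (1 * k + ρ) := by
      unfold diff Ds
      refine Finset.sum_congr rfl fun i _ => ?_
      simp only [one_mul]
      rw [exp_f D τ _ (by omega)]
      rfl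
    rw [e1]
    refine hk.trans ?_
    rw [one_mul]
    have hk0 : (0 : ℝ) < k := by exact_mod_cast (by omega : 0 < k)
    have hkn : ((k + ρ : ℕ) : ℝ) ≤ 2 * k := by exact_mod_cast (by omega : k + ρ ≤ 2 * k)
    have hn0 : (0 : ℝ) < ((k + ρ : ℕ) : ℝ) := by exact_mod_cast (by omega : 0 < k + ρ)
    have h7 : (k : ℝ) ^ (-(M + b * (r + 1))) ≤
        (2 : ℝ) ^ (M + b * (r + 1)) * ((k + ρ : ℕ) : ℝ) ^ (-(M + b * (r + 1))) := by
      calc (k : ℝ) ^ (-(M + b * (r + 1))) ≤ (((k + ρ : ℕ) : ℝ) / 2) ^ (-(M + b * (r + 1))) :=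
            Real.rpow_le_rpow_of_nonpos (by positivity) (by linarith) (by linarith)
        _ = _ := by
            rw [Real.div_rpow hn0.le (by norm_num), Real.rpow_neg (by norm_num : (0 : ℝ) ≤ 2),
              div_inv_eq_mul, mul_comm]
    have hE := Real.exp_pos (G q β a θ ((k + ρ : ℕ) : ℝ))
    calc K * Real.exp (G q β a θ ((k + ρ : ℕ) : ℝ)) * (k : ℝ) ^ (-(M + b * (r + 1)))
        ≤ |K| * Real.exp (G q β a θ ((k + ρ : ℕ) : ℝ)) *
          ((2 : ℝ) ^ (M + b * (r + 1)) * ((k + ρ : ℕ) : ℝ) ^ (-(M + b * (r + 1)))) := by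
          refine mul_le_mul (mul_le_mul_of_nonneg_right (le_abs_self K) hE.le) h7
            (Real.rpow_nonneg hk0.le _) (by positivity)
      _ = |K| * (2 : ℝ) ^ (M + b * (r + 1)) * Real.exp (G q β a θ ((k + ρ : ℕ) : ℝ)) *
          ((k + ρ : ℕ) : ℝ) ^ (-(M + b * (r + 1))) := by ring
      _ = _ := rfl
  · intro A hA hM2 hval
    have hval3 : ∃ K : ℝ, ∀ᶠ j : ℕ in atTop,
        |Real.log (wsum μ 0 m ρ (v j)) - expansion 1 β (fun _ => Real.log A) (fun _ => 0)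
          (v j + ρ)| ≤ K * (v j : ℝ) ^ (-M) := by
      obtain ⟨K, hK⟩ := hval
      refine ⟨2 * |K|, ?_⟩
      have hsmall : Tendsto (fun j : ℕ => |K| * (v j : ℝ) ^ (-M)) atTop (𝓝 0) := by
        have := ((tendsto_rpow_neg_atTop (show 0 < M by linarith)).comp
          (tendsto_natCast_atTop_atTop.comp hv)).const_mul |K|
        rw [mul_zero] at this
        exact this
      filter_upwards [hK, hsmall.eventually (ge_mem_nhds (show (0 : ℝ) < 1 / 2 by norm_num)),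
        hv.eventually_ge_atTop 1] with j h1 h2 h3
      have hv0 : (0 : ℝ) < v j := by exact_mod_cast h3
      have hN : (0 : ℝ) < ((v j + ρ : ℕ) : ℝ) := by exact_mod_cast (by omega : 0 < v j + ρ)
      have hW : 0 < wsum μ 0 m ρ (v j) := by
        rw [wsum_eq D 0 m ρ _ hρ, TS_eq]
        exact S_pos _ _
      have hB : 0 < A * ((v j + ρ : ℕ) : ℝ) ^ β := mul_pos hA (Real.rpow_pos_of_pos hN _)
      set y := wsum μ 0 m ρ (v j) / (A * ((v j + ρ : ℕ) : ℝ) ^ β) with hy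
      have hy0 : 0 < y := div_pos hW hB
      have h4 : |y - 1| ≤ |K| * (v j : ℝ) ^ (-M) :=
        h1.trans (mul_le_mul_of_nonneg_right (le_abs_self K) (Real.rpow_nonneg hv0.le _))
      have e1 : Real.log (wsum μ 0 m ρ (v j)) - expansion 1 β (fun _ => Real.log A) (fun _ => 0)
          (v j + ρ) = Real.log y := by
        rw [hy, Real.log_div hW.ne' hB.ne', Real.log_mul hA.ne' (Real.rpow_pos_of_pos hN _).ne',
          Real.log_rpow hN]
        unfold expansion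
        simp
        ring
      rw [e1]
      have h5 : Real.log y ≤ |y - 1| := (Real.log_le_sub_one_of_pos hy0).trans (le_abs_self _)
      have h6 : -(2 * |y - 1|) ≤ Real.log y := by
        have h7 : 1 / 2 ≤ y := by
          have := (abs_le.1 (h4.trans h2)).1
          linarith
        have h8 := Real.one_sub_inv_le_log_of_pos hy0
        have h9 : -(2 * |y - 1|) ≤ 1 - y⁻¹ := by
          have e2 : 1 - y⁻¹ = (y - 1) / y := by field_simp
          rw [e2, le_div_iff₀ hy0]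
          have h10 : -|y - 1| ≤ y - 1 := neg_abs_le _
          have h11 := abs_nonneg (y - 1)
          nlinarith
        linarith
      have h11 := abs_nonneg (y - 1)
      have h12 : |Real.log y| ≤ 2 * |y - 1| := abs_le.2 ⟨h6, by linarith⟩
      calc |Real.log y| ≤ 2 * |y - 1| := h12
        _ ≤ 2 * (|K| * (v j : ℝ) ^ (-M)) := by linarith
        _ = _ := by ring
    have h := (hpart2 0 1 (fun _ => Real.log A) (fun _ => 0) (fun _ => le_rfl) hM2
      hval3).const_mul A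
    refine h.congr' ?_
    filter_upwards [eventually_ge_atTop 1] with n hn
    have hn0 : (0 : ℝ) < n := by exact_mod_cast hn
    have e1 : Real.exp (expansion 1 β (fun _ => Real.log A) (fun _ => 0) n) = A * (n : ℝ) ^ β := by
      unfold expansion
      simp only [neg_zero, Real.rpow_zero, mul_one, Finset.univ_unique, Finset.sum_const,
        Finset.card_singleton, one_smul]
      rw [Real.exp_add, Real.exp_log hA, mul_comm β, Real.exp_mul, Real.exp_log hn0, mul_comm]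
    rw [e1, Real.rpow_zero, one_mul, Real.rpow_sub hn0]
    have := Real.rpow_pos_of_pos hn0 β
    field_simp

end Pool.Agent.Results.MP_376faf_co.WeightedSums
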